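import Mathlib
import Pool.Agent.Lib.MP_52ca01_co.Count

/-!
# The generalized Ramsey number of an even cycle in a complete bipartite graph

For all `k ≥ 2` and all `n`, every edge colouring of `K_{n,n}` in which each cycle of length `2k`
receives at least three colours uses at least `c_k n` colours, where
`c_k = (3k-2) / (2(k-1)(2k-1))`.
-/

set_option autoImplicit false

namespace Pool.Agent.Results.MP_52ca01_co.LowerBound

open SimpleGraph

/-- `c` is an `(H, q)`-colouring of `G`: in every subgraph of `G` isomorphic to `H` the edges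
have at least `q` distinct colours. -/
def IsColouring {V W C : Type*} (G : SimpleGraph V) (H : SimpleGraph W) (q : ℕ)
    (c : G.edgeSet → C) : Prop :=
  ∀ S : G.Subgraph, Nonempty (S.coe ≃g H) → q ≤ (c '' {e | (e : Sym2 V) ∈ S.edgeSet}).ncard

/-- The generalized Ramsey number `r(G, H, q)`: the least number of colours in an
`(H, q)`-colouring of `G`. -/
noncomputable def genRamsey {V W : Type*} (G : SimpleGraph V) (H : SimpleGraph W) (q : ℕ) : ℕ :=
  sInf {N | ∃ c : G.edgeSet → Fin N, IsColouring G H q c}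

open Pool.Agent.MP_52ca01_co

/-- Consecutive elements of a cyclic order. -/
lemma sub_val_one {N : ℕ} {u v : Fin N} (h : (v - u).val = 1) :
    v.val = u.val + 1 ∨ (u.val + 1 = N ∧ v.val = 0) := by
  rw [Fin.sub_def] at h
  simp only at h
  have hu := u.isLt
  have hv := v.isLt
  rcases Nat.lt_or_ge (N - u.val + v.val) N with h1 | h1
  · rw [Nat.mod_eq_of_lt h1] at h
    right; omega
  · rw [Nat.mod_eq_sub_mod h1, Nat.mod_eq_of_lt (by omega)] at h
    left; omega

/-- Incidences along a path. -/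
lemma lk_get {α β : Type*} {R : α → β → Prop} {a b : α} {xs : List α} {ys : List β}
    (h : Lk R a b xs ys) :
    (∃ h0 : 0 < xs.length, xs[0] = a) ∧ (∃ h1 : ys.length < xs.length, xs[ys.length] = b) ∧
    ∀ i (hi : i < ys.length), ∃ (h2 : i < xs.length) (h3 : i + 1 < xs.length),
      R xs[i] ys[i] ∧ R xs[i + 1] ys[i] := by
  induction h with
  | single a => simp
  | @cons a a' b xs ys y h1 h2 h ih =>
    obtain ⟨⟨g0, g1⟩, ⟨g2, g3⟩, g4⟩ := ih
    refine ⟨⟨by simp, rfl⟩, ⟨by simpa using g2, by simpa using g3⟩, ?_⟩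
    intro i hi
    cases i with
    | zero => exact ⟨by simp, by simpa using g0, by simpa using h1, by simpa [g1] using h2⟩
    | succ i =>
      obtain ⟨p1, p2, p3, p4⟩ := g4 i (by simpa using hi)
      exact ⟨by simpa using p1, by simpa using p2, by simpa using p3, by simpa using p4⟩

/-- A two-coloured cycle contradicts the colouring property. -/
lemma no_cycle {n N k : ℕ} (hk : 2 ≤ k)
    {c : (completeBipartiteGraph (Fin n) (Fin n)).edgeSet → Fin N}
    (hc : IsColouring (completeBipartiteGraph (Fin n) (Fin n)) (cycleGraph (2 * k)) 3 c)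
    (col : Fin n → Fin n → Fin N)
    (hcol : ∀ x y, ∃ h : (completeBipartiteGraph (Fin n) (Fin n)).Adj (Sum.inl x) (Sum.inr y),
      c ⟨s(Sum.inl x, Sum.inr y), h⟩ = col x y) (i j : Fin N) :
    ¬ HasCyc (fun x y => col x y = i ∨ col x y = j) k := by
  rintro ⟨a, b, xs, ys, z, hcyc, hl⟩
  have hlen := hcyc.pth.length_eq
  obtain ⟨⟨g0, g1⟩, ⟨g2, g3⟩, g4⟩ := lk_get hcyc.pth.lk
  have hzs : (ys ++ [z]).length = k := by simp; omega
  have hzn : (ys ++ [z]).Nodup := by
    rw [List.nodup_append]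
    refine ⟨hcyc.pth.ny, by simp, ?_⟩
    intro s hs s' hs' hss
    rw [List.mem_singleton] at hs'
    subst hs'
    subst hss
    exact hcyc.nz hs
  -- functions instead of lists
  obtain ⟨X, hX, hXi⟩ : ∃ X : ℕ → Fin n, (∀ t (ht : t < xs.length), X t = xs[t]) ∧
      ∀ s t, s < k → t < k → X s = X t → s = t := by
    refine ⟨fun t => if h : t < xs.length then xs[t] else a, fun t ht => by simp [ht], ?_⟩
    intro s t hs ht hst
    have hs' : s < xs.length := by omega
    have ht' : t < xs.length := by omega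
    simp only [hs', ht', dif_pos] at hst
    exact (List.Nodup.getElem_inj_iff hcyc.pth.nx).1 hst
  obtain ⟨Y, hY, hYi⟩ : ∃ Y : ℕ → Fin n, (∀ t (ht : t < (ys ++ [z]).length), Y t = (ys ++ [z])[t]) ∧
      ∀ s t, s < k → t < k → Y s = Y t → s = t := by
    refine ⟨fun t => if h : t < (ys ++ [z]).length then (ys ++ [z])[t] else a,
      fun t ht => by simp only [ht, dif_pos], ?_⟩
    intro s t hs ht hst
    have hs' : s < (ys ++ [z]).length := by omega
    have ht' : t < (ys ++ [z]).length := by omega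
    simp only [hs', ht', dif_pos] at hst
    exact (List.Nodup.getElem_inj_iff hzn).1 hst
  -- the incidences
  have inc1 : ∀ t, t < k → col (X t) (Y t) = i ∨ col (X t) (Y t) = j := by
    intro t ht
    rw [hX t (by omega), hY t (by omega)]
    rcases Nat.lt_or_ge t ys.length with h | h
    · obtain ⟨p1, p2, p3, p4⟩ := g4 t h
      rw [List.getElem_append_left h]
      exact p3
    · have ht' : t = ys.length := by omega
      subst ht'
      rw [List.getElem_append_right le_rfl]
      simp only [g3, Nat.sub_self, List.getElem_cons_zero]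
      exact hcyc.lb
  have inc2 : ∀ t, t + 1 < k → col (X (t + 1)) (Y t) = i ∨ col (X (t + 1)) (Y t) = j := by
    intro t ht
    rw [hX (t + 1) (by omega), hY t (by omega)]
    have h : t < ys.length := by omega
    obtain ⟨p1, p2, p3, p4⟩ := g4 t h
    rw [List.getElem_append_left h]
    exact p4
  have inc3 : col (X 0) (Y (k - 1)) = i ∨ col (X 0) (Y (k - 1)) = j := by
    rw [hX 0 (by omega), hY (k - 1) (by omega)]
    have h1 : (ys ++ [z])[k - 1]'(by omega) = z := by
      rw [List.getElem_append_right (by omega)]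
      simp
    rw [h1, g1]
    exact hcyc.la
  -- the coloured adjacency relation
  obtain ⟨D, hD⟩ : ∃ D : Fin n ⊕ Fin n → Fin n ⊕ Fin n → Prop, D = fun u v =>
    ∃ h : (completeBipartiteGraph (Fin n) (Fin n)).Adj u v, c ⟨s(u, v), h⟩ = i ∨
      c ⟨s(u, v), h⟩ = j := ⟨_, rfl⟩
  have hDsymm : ∀ u v, D u v → D v u := by
    intro u v huv
    rw [hD] at huv ⊢
    obtain ⟨h, h'⟩ := huv
    refine ⟨h.symm, ?_⟩
    have : (⟨s(v, u), h.symm⟩ : (completeBipartiteGraph (Fin n) (Fin n)).edgeSet) =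
        ⟨s(u, v), h⟩ := Subtype.ext Sym2.eq_swap
    rw [this]
    exact h'
  have hDcol : ∀ x y, (col x y = i ∨ col x y = j) → D (Sum.inl x) (Sum.inr y) := by
    intro x y hxy
    rw [hD]
    obtain ⟨h, h'⟩ := hcol x y
    exact ⟨h, by rw [h']; exact hxy⟩
  -- the map
  obtain ⟨f, hf0, hf1⟩ : ∃ f : Fin (2 * k) → Fin n ⊕ Fin n,
      (∀ u : Fin (2 * k), ∀ t, u.val = 2 * t → f u = Sum.inl (X t)) ∧
      (∀ u : Fin (2 * k), ∀ t, u.val = 2 * t + 1 → f u = Sum.inr (Y t)) := by
    refine ⟨fun u => if u.val % 2 = 0 then Sum.inl (X (u.val / 2)) else Sum.inr (Y (u.val / 2)),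
      fun u t ht => ?_, fun u t ht => ?_⟩
    · have h1 : u.val % 2 = 0 := by omega
      have h2 : u.val / 2 = t := by omega
      simp only [h1, h2, if_true]
    · have h1 : ¬ u.val % 2 = 0 := by omega
      have h2 : u.val / 2 = t := by omega
      simp only [h1, h2, if_false]
  have hfinj : Function.Injective f := by
    intro u v huv
    have hu := u.isLt
    have hv := v.isLt
    apply Fin.ext
    rcases Nat.even_or_odd' u.val with ⟨s, hs | hs⟩ <;>
      rcases Nat.even_or_odd' v.val with ⟨t, ht | ht⟩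
    · rw [hf0 u s hs, hf0 v t ht] at huv
      have := hXi s t (by omega) (by omega) (Sum.inl_injective huv)
      omega
    · rw [hf0 u s hs, hf1 v t ht] at huv
      exact absurd huv (by simp)
    · rw [hf1 u s hs, hf0 v t ht] at huv
      exact absurd huv (by simp)
    · rw [hf1 u s hs, hf1 v t ht] at huv
      have := hYi s t (by omega) (by omega) (Sum.inr_injective huv)
      omega
  have hstep : ∀ u v : Fin (2 * k), (v - u).val = 1 → D (f u) (f v) := by
    intro u v huv
    have hu := u.isLt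
    have hv := v.isLt
    rcases sub_val_one huv with h | ⟨h, h'⟩
    · rcases Nat.even_or_odd' u.val with ⟨t, ht | ht⟩
      · rw [hf0 u t ht, hf1 v t (by omega)]
        exact hDcol _ _ (inc1 t (by omega))
      · rw [hf1 u t ht, hf0 v (t + 1) (by omega)]
        exact hDsymm _ _ (hDcol _ _ (inc2 t (by omega)))
    · rw [hf1 u (k - 1) (by omega), hf0 v 0 (by omega)]
      exact hDsymm _ _ (hDcol _ _ inc3)
  have hadj : ∀ u v : Fin (2 * k), (cycleGraph (2 * k)).Adj u v → D (f u) (f v) := by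
    intro u v huv
    rw [cycleGraph_adj'] at huv
    rcases huv with h | h
    · exact hDsymm _ _ (hstep v u h)
    · exact hstep u v h
  -- the copy of the cycle
  obtain ⟨F, hF⟩ : ∃ F : Copy (cycleGraph (2 * k)) (completeBipartiteGraph (Fin n) (Fin n)),
      ∀ u, F u = f u := by
    refine ⟨⟨⟨f, fun {u v} h => ?_⟩, hfinj⟩, fun u => rfl⟩
    have := hadj u v h
    rw [hD] at this
    exact this.1
  have hS := hc F.toSubgraph ⟨F.isoToSubgraph.symm⟩
  have hsub : (c '' {e | (e : Sym2 (Fin n ⊕ Fin n)) ∈ F.toSubgraph.edgeSet}) ⊆ {i, j} := by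
    rintro w ⟨e, he, rfl⟩
    obtain ⟨e, hemem⟩ := e
    induction e using Sym2.ind with
    | _ s t =>
      simp only [Set.mem_ofPred_eq] at he
      rw [Subgraph.mem_edgeSet] at he
      obtain ⟨u, v, huv, hus, hvt⟩ := he
      have h1 := hadj u v huv
      have hs : f u = s := by rw [← hF]; exact hus
      have ht : f v = t := by rw [← hF]; exact hvt
      rw [hs, ht, hD] at h1
      obtain ⟨h2, h3⟩ := h1
      simpa using h3
  have h1 := Set.ncard_le_ncard hsub
  have h2 : ({i, j} : Set (Fin N)).ncard ≤ 2 :=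
    (Set.ncard_insert_le i {j}).trans (by rw [Set.ncard_singleton])
  omega

/-- There is some colouring: all edges get different colours. -/
lemma exists_colouring {n k : ℕ} (hk : 2 ≤ k) :
    ∃ (N : ℕ) (c : (completeBipartiteGraph (Fin n) (Fin n)).edgeSet → Fin N),
      IsColouring (completeBipartiteGraph (Fin n) (Fin n)) (cycleGraph (2 * k)) 3 c := by
  classical
  refine ⟨Fintype.card (completeBipartiteGraph (Fin n) (Fin n)).edgeSet,
    Fintype.equivFin _, ?_⟩
  rintro S ⟨φ⟩
  rw [Set.ncard_image_of_injective _ (Equiv.injective _)]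
  obtain ⟨l, rfl⟩ : ∃ l, k = l + 2 := ⟨k - 2, by omega⟩
  have hadj : ∀ u v : Fin (2 * (l + 2)), (v - u).val = 1 →
      S.Adj (φ.symm u : Fin n ⊕ Fin n) (φ.symm v) := by
    intro u v h
    have h1 : (cycleGraph (2 * (l + 2))).Adj u v := cycleGraph_adj'.2 (Or.inr h)
    exact φ.symm.map_adj_iff.2 h1
  obtain ⟨v0, hv0⟩ : ∃ v : Fin (2 * (l + 2)), v.val = 0 := ⟨⟨0, by omega⟩, rfl⟩
  obtain ⟨v1, hv1⟩ : ∃ v : Fin (2 * (l + 2)), v.val = 1 := ⟨⟨1, by omega⟩, rfl⟩
  obtain ⟨v2, hv2⟩ : ∃ v : Fin (2 * (l + 2)), v.val = 2 := ⟨⟨2, by omega⟩, rfl⟩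
  obtain ⟨v3, hv3⟩ : ∃ v : Fin (2 * (l + 2)), v.val = 3 := ⟨⟨3, by omega⟩, rfl⟩
  have sub1 : ∀ u v : Fin (2 * (l + 2)), v.val = u.val + 1 → (v - u).val = 1 := by
    intro u v h
    rw [Fin.sub_def]
    simp only
    have := u.isLt
    have := v.isLt
    rw [Nat.mod_eq_sub_mod (by omega), Nat.mod_eq_of_lt (by omega)]
    omega
  have a01 := hadj v0 v1 (sub1 _ _ (by omega))
  have a12 := hadj v1 v2 (sub1 _ _ (by omega))
  have a23 := hadj v2 v3 (sub1 _ _ (by omega))
  have hinj : ∀ u v : Fin (2 * (l + 2)), u.val ≠ v.val →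
      (φ.symm u : Fin n ⊕ Fin n) ≠ φ.symm v := by
    intro u v h h'
    exact h (congrArg Fin.val (φ.symm.injective (Subtype.ext h')))
  have n02 := hinj v0 v2 (by omega)
  have n03 := hinj v0 v3 (by omega)
  have n13 := hinj v1 v3 (by omega)
  have n01 := hinj v0 v1 (by omega)
  have n12 := hinj v1 v2 (by omega)
  have n23 := hinj v2 v3 (by omega)
  have key : 2 < Set.ncard {e : (completeBipartiteGraph (Fin n) (Fin n)).edgeSet |
      (e : Sym2 (Fin n ⊕ Fin n)) ∈ S.edgeSet} := by
    rw [Set.two_lt_ncard_iff]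
    refine ⟨⟨s((φ.symm v0 : Fin n ⊕ Fin n), φ.symm v1), S.adj_sub a01⟩,
      ⟨s((φ.symm v1 : Fin n ⊕ Fin n), φ.symm v2), S.adj_sub a12⟩,
      ⟨s((φ.symm v2 : Fin n ⊕ Fin n), φ.symm v3), S.adj_sub a23⟩, a01, a12, a23, ?_, ?_, ?_⟩
    · intro h
      have := congrArg Subtype.val h
      simp only [Sym2.eq_iff] at this
      tauto
    · intro h
      have := congrArg Subtype.val h
      simp only [Sym2.eq_iff] at this
      tauto
    · intro h
      have := congrArg Subtype.val h
      simp only [Sym2.eq_iff] at this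
      tauto
  exact key

/-- **Theorem.** For all `k ≥ 2` and all `n`,
`r(K_{n,n}, C_{2k}, 3) ≥ c_k n` where `c_k = (3k - 2) / (2 (k - 1) (2k - 1))`. -/
theorem result (k : ℕ) (hk : 2 ≤ k) (n : ℕ) :
    (3 * k - 2 : ℝ) / (2 * (k - 1) * (2 * k - 1)) * n ≤
      genRamsey (completeBipartiteGraph (Fin n) (Fin n)) (cycleGraph (2 * k)) 3 := by
  obtain ⟨N, c0, hc0⟩ := exists_colouring (n := n) hk
  obtain ⟨c, hc⟩ := Nat.sInf_mem (s := {N | ∃ c : (completeBipartiteGraph (Fin n)
    (Fin n)).edgeSet → Fin N, IsColouring (completeBipartiteGraph (Fin n) (Fin n))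
      (cycleGraph (2 * k)) 3 c}) ⟨N, c0, hc0⟩
  change (completeBipartiteGraph (Fin n) (Fin n)).edgeSet →
    Fin (genRamsey (completeBipartiteGraph (Fin n) (Fin n)) (cycleGraph (2 * k)) 3) at c
  have hadj : ∀ x y : Fin n, (completeBipartiteGraph (Fin n) (Fin n)).Adj (Sum.inl x)
      (Sum.inr y) := by
    intro x y
    simp
  have hno := no_cycle hk hc (fun x y => c ⟨s(Sum.inl x, Sum.inr y), hadj x y⟩)
    (fun x y => ⟨hadj x y, rfl⟩)
  have hcount := count hk (fun x y => c ⟨s(Sum.inl x, Sum.inr y), hadj x y⟩) hno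
  obtain ⟨M, hM⟩ : ∃ M, M =
    genRamsey (completeBipartiteGraph (Fin n) (Fin n)) (cycleGraph (2 * k)) 3 := ⟨_, rfl⟩
  rw [← hM] at hcount ⊢
  have hk' : (2 : ℝ) ≤ k := by exact_mod_cast hk
  have hpos : (0 : ℝ) < 2 * (k - 1) * (2 * k - 1) :=
    mul_pos (mul_pos two_pos (by linarith)) (by linarith)
  rcases Nat.eq_zero_or_pos n with rfl | hn
  · simp
  have hn' : (1 : ℝ) ≤ n := by exact_mod_cast hn
  have hreal : (2 * k - 1 : ℝ) ^ 2 * n ^ 2 ≤
      2 * (k - 1) * k * (2 * k - 1) * (n * M) + (k - 1 : ℝ) ^ 2 * (n * (n - 1)) := by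
    exact_mod_cast hcount
  rw [div_mul_eq_mul_div, div_le_iff₀ hpos]
  have h1 : (n * k : ℝ) * ((3 * k - 2) * n) ≤ (n * k) * (M * (2 * (k - 1) * (2 * k - 1))) := by
    have h2 : (0 : ℝ) ≤ (k - 1) ^ 2 * n := by positivity
    nlinarith
  exact le_of_mul_le_mul_left h1 (by positivity)

end Pool.Agent.Results.MP_52ca01_co.LowerBound
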